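import Pool.Agent.Helper22.G4.GenFam

/-! # G4-H1: no chords and connectivity of the generic graph -/

namespace Pool.Agent.Helper64.G4

open Submodule Pool.Agent.Helper22.G4

variable {α φ : Type} [DecidableEq α] [DecidableEq φ]

/-- a list without repetitions of length at least 3 has an element different from two given ones. -/
lemma exists_other {β : Type} [DecidableEq β] {l : List β} (hn : l.Nodup) (hl : 3 ≤ l.length) (a b : β) :
    ∃ t ∈ l, t ≠ a ∧ t ≠ b := by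
  by_contra h
  push Not at h
  have h1 : l.toFinset ⊆ {a, b} := by
    intro t ht
    rw [List.mem_toFinset] at ht
    by_cases hta : t = a
    · simp [hta]
    · simp [h t ht hta]
  have h2 := Finset.card_le_card h1
  rw [List.toFinset_card_of_nodup hn] at h2
  have h3 : ({a, b} : Finset β).card ≤ 2 := Finset.card_le_two
  omega

/-- G4-H1 (no chords, connectivity). -/
theorem gen_chord {D : Data α φ} (hD : D.Good) : ∀ R ∈ D.flats, ∀ a ∈ R.1, ∀ b ∈ R.1, a ≠ b →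
    (a, b) ∉ cycPairs R.1 → (b, a) ∉ cycPairs R.1 → ¬ D.padj a b := by
  intro R hR a ha b hb hab h1 h2 hp
  obtain ⟨t, ht, hta, htb⟩ := exists_other (hD.nd R hR) (by have := hD.len R hR; omega) a b
  obtain ⟨f, hf, hfa, hfb, hft⟩ := hp.2 t (hD.sub R hR t ht) hta htb
  have h3 := (hD.inter R hR t (hD.sub R hR t ht)).2 ht
  rcases hD.diag R hR a ha b hb hab h1 h2 f hf hfa hfb with h | h
  · rw [h] at hft; exact hft h3.1
  · rw [h] at hft; exact hft h3.2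

lemma adjW_symm {D : Data α φ} {s t : W α φ} (h : D.adjW s t) : D.adjW t s := by
  rcases s with a | f | R | R <;> rcases t with b | g | S | S <;> simp only [Data.adjW] at h ⊢ <;>
    try exact h
  exact ⟨h.1.symm, fun t ht h1 h2 => by
    obtain ⟨f, hf, h3, h4, h5⟩ := h.2 t ht h2 h1
    exact ⟨f, hf, h4, h3, h5⟩⟩

/-- the vertices outside the pyramids over the flat `R`. -/
def Out (D : Data α φ) (R : Flat α φ) (w : W α φ) : Prop := w ∈ D.l3 ∧ w ∉ Zs R ∪ {W.q R}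

def Rel (D : Data α φ) (R : Flat α φ) (s t : W α φ) : Prop :=
  Out D R s ∧ Out D R t ∧ s ≠ t ∧ D.adjW s t

omit [DecidableEq α] [DecidableEq φ] in
lemma mem_l3 {D : Data α φ} {w : W α φ} : w ∈ D.l3 ↔ (∃ a ∈ D.verts, w = W.v a) ∨
    (∃ f ∈ D.fcodes, w = W.x f) ∨ (∃ S ∈ D.flats, w = W.p S) ∨ (∃ S ∈ D.flats, w = W.q S) := by
  simp only [Data.l3, Data.l2, Data.l1, Data.l0, List.mem_append, List.mem_map, or_assoc]
  constructor
  · rintro (⟨a, ha, rfl⟩ | ⟨a, ha, rfl⟩ | ⟨a, ha, rfl⟩ | ⟨a, ha, rfl⟩)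
    · exact Or.inl ⟨a, ha, rfl⟩
    · exact Or.inr (Or.inl ⟨a, ha, rfl⟩)
    · exact Or.inr (Or.inr (Or.inl ⟨a, ha, rfl⟩))
    · exact Or.inr (Or.inr (Or.inr ⟨a, ha, rfl⟩))
  · rintro (⟨a, ha, rfl⟩ | ⟨a, ha, rfl⟩ | ⟨a, ha, rfl⟩ | ⟨a, ha, rfl⟩)
    · exact Or.inl ⟨a, ha, rfl⟩
    · exact Or.inr (Or.inl ⟨a, ha, rfl⟩)
    · exact Or.inr (Or.inr (Or.inl ⟨a, ha, rfl⟩))
    · exact Or.inr (Or.inr (Or.inr ⟨a, ha, rfl⟩))

omit [DecidableEq α] [DecidableEq φ] in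
lemma out_x {D : Data α φ} (R : Flat α φ) {f : φ} (hf : f ∈ D.fcodes) : Out D R (W.x f) := by
  refine ⟨mem_l3.2 (Or.inr (Or.inl ⟨f, hf, rfl⟩)), ?_⟩
  rintro ((⟨a, _, h⟩ | h) | h)
  · simp at h
  · simp at h
  · simp at h

omit [DecidableEq α] [DecidableEq φ] in
lemma out_v {D : Data α φ} {R : Flat α φ} {a : α} (ha : a ∈ D.verts) (h : a ∉ R.1) :
    Out D R (W.v a) := by
  refine ⟨mem_l3.2 (Or.inl ⟨a, ha, rfl⟩), ?_⟩
  rintro ((⟨b, hb, h'⟩ | h') | h')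
  · simp only [W.v, Sum.inl.injEq] at h'
    exact h (h' ▸ hb)
  · simp at h'
  · simp at h'

lemma rel_symm {D : Data α φ} {R : Flat α φ} {s t : W α φ} (h : Rel D R s t) : Rel D R t s :=
  ⟨h.2.1, h.1, h.2.2.1.symm, adjW_symm h.2.2.2⟩

lemma rtg_symm {D : Data α φ} {R : Flat α φ} {s t : W α φ}
    (h : Relation.ReflTransGen (Rel D R) s t) : Relation.ReflTransGen (Rel D R) t s := by
  induction h with
  | refl => exact Relation.ReflTransGen.refl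
  | tail _ h2 ih => exact Relation.ReflTransGen.head (rel_symm h2) ih

lemma x_conn {D : Data α φ} (hD : D.Good) {R : Flat α φ} (hR : R ∈ D.flats) {f g : φ}
    (hf : f ∈ D.fcodes) (hg : g ∈ D.fcodes) : Relation.ReflTransGen (Rel D R) (W.x f) (W.x g) := by
  have key : ∀ g, Relation.ReflTransGen (fun f g => g ∈ D.fcodes ∧ ∃ v ∈ D.verts, v ∉ R.1 ∧
      D.mem f v ∧ D.mem g v) f g → g ∈ D.fcodes ∧ Relation.ReflTransGen (Rel D R) (W.x f) (W.x g) := by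
    intro g h
    induction h with
    | refl => exact ⟨hf, Relation.ReflTransGen.refl⟩
    | @tail b c _ h2 ih =>
      obtain ⟨hc, v, hv, hvR, hbv, hcv⟩ := h2
      have e1 : Rel D R (W.x b) (W.v v) := ⟨out_x R ih.1, out_v hv hvR, by simp, hbv⟩
      have e2 : Rel D R (W.v v) (W.x c) := ⟨out_v hv hvR, out_x R hc, by simp, hcv⟩
      exact ⟨hc, (ih.2.tail e1).tail e2⟩
  exact (key g (hD.conn R hR f hf g hg)).2

lemma to_x {D : Data α φ} (hD : D.Good) {R : Flat α φ} {u : W α φ} (hu : Out D R u) :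
    ∃ f ∈ D.fcodes, Relation.ReflTransGen (Rel D R) u (W.x f) := by
  rcases mem_l3.1 hu.1 with ⟨a, ha, rfl⟩ | ⟨f, hf, rfl⟩ | ⟨S, hS, rfl⟩ | ⟨S, hS, rfl⟩
  · obtain ⟨t, ht, hta, _⟩ := exists_other hD.vnd (by have := hD.big; omega) a a
    obtain ⟨f, hf, hfa, _⟩ := hD.fvert a ha t ht hta
    exact ⟨f, hf, Relation.ReflTransGen.single ⟨hu, out_x R hf, by simp, hfa⟩⟩
  · exact ⟨f, hf, Relation.ReflTransGen.refl⟩
  · exact ⟨S.2.1, hD.mem1 S hS, Relation.ReflTransGen.single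
      ⟨hu, out_x R (hD.mem1 S hS), by simp, rfl⟩⟩
  · refine ⟨S.2.1, hD.mem1 S hS, Relation.ReflTransGen.single
      ⟨hu, out_x R (hD.mem1 S hS), by simp, ?_⟩⟩
    change D.eIn S S.2.1 = true
    rw [Data.eIn, List.all_eq_true]
    intro a ha
    have ha' : a ∈ S.1 := List.mem_of_mem_take ha
    exact ((hD.inter S hS a (hD.sub S hS a ha')).2 ha').1

/-- G4-H1 -/
theorem gen_conn {D : Data α φ} (hD : D.Good) : ∀ R ∈ D.flats, ∀ u ∈ D.l3, ∀ v ∈ D.l3,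
    u ∉ Zs R ∪ {W.q R} → v ∉ Zs R ∪ {W.q R} →
    Relation.ReflTransGen (fun s t => t ∈ D.l3 ∧ t ∉ Zs R ∪ {W.q R} ∧ s ≠ t ∧ D.adjW s t) u v := by
  intro R hR u hu v hv hu' hv'
  obtain ⟨f, hf, h1⟩ := to_x hD (R := R) ⟨hu, hu'⟩
  obtain ⟨g, hg, h2⟩ := to_x hD (R := R) ⟨hv, hv'⟩
  have h3 := (h1.trans (x_conn hD hR hf hg)).trans (rtg_symm h2)
  refine Relation.ReflTransGen.mono ?_ _ _ h3
  intro s t h
  exact ⟨h.2.1.1, h.2.1.2, h.2.2.1, h.2.2.2⟩

end Pool.Agent.Helper64.G4
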